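import Pool.Agent.V1178.FH.Defs

/-!
# Kernels of Abel-Jacobi maps and Albanese kernels: definitions
-/

set_option autoImplicit false

open CategoryTheory AlgebraicGeometry

universe u v w

namespace Pool.Agent.V1178.FH

open Pool.Agent.H914 Pool.Agent.H914.VarClass Pool.Agent.H914.VarClass.Obj Pool.Agent.W492.BB
  Pool.Agent.V1157.KF

variable {k : Type u} [Field k] {𝒱 : VarClass k} {C : TheoryData.{u, v, 0} 𝒱 ℚ} {K : Type w}
  [Field K]

/-- An Abel-Jacobi map on the homologically trivial cycles of codimension `m` (with rational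
coefficients) of the varieties of dimension `n`, for example the `p`-adic étale Abel-Jacobi map, with
`J X = H^1(k, H^{2m-1}(X_{k̄}, ℚ_p(m)))`: maps `φ` to rational vector spaces `J X`, linear on
homologically trivial cycles and compatible with the correspondences of degree zero. -/
structure AbelJacobi (H : WeilTheoryData.{u, v, w} C K) (n m : ℕ) where
  /-- the target -/
  J : 𝒱.Obj → Type w
  [grp : ∀ X, AddCommGroup (J X)]
  [mod : ∀ X, Module ℚ (J X)]
  /-- the Abel-Jacobi map -/
  φ : ∀ {X : 𝒱.Obj}, C.A X → J X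
  /-- the action of correspondences -/
  act : ∀ {X Y : 𝒱.Obj}, C.A (X.prod Y) → J X → J Y
  φ_add : ∀ {X : 𝒱.Obj} {x y : C.A X}, HomTriv H m x → HomTriv H m y → φ (x + y) = φ x + φ y
  φ_smul : ∀ {X : 𝒱.Obj} {x : C.A X} (q : ℚ), HomTriv H m x → φ (q • x) = q • φ x
  act_zero : ∀ {X Y : 𝒱.Obj} (Γ : C.A (X.prod Y)), act Γ 0 = 0
  φ_act : ∀ {X Y : 𝒱.Obj} (Γ : C.A (X.prod Y)) {x : C.A X}, X.dim = n → Y.dim = n →
    C.Deg n Γ → HomTriv H m x → φ (C.act Γ x) = act Γ (φ x)

attribute [instance] AbelJacobi.grp AbelJacobi.mod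

variable {H : WeilTheoryData.{u, v, w} C K} {n m : ℕ} (a : AbelJacobi.{u, v, w} H n m)

/-- The Abel-Jacobi map is injective on the homologically trivial cycles of the varieties of
dimension `n` in the class `P`. -/
def Injectivity (P : 𝒱.Obj → Prop) : Prop :=
  ∀ (X : 𝒱.Obj) (x : C.A X), P X → X.dim = n → HomTriv H m x → a.φ x = 0 → x = 0

/-- The kernel of the Abel-Jacobi map: the span of the homologically trivial cycles `x` of
codimension `m` with `φ x = 0` (which form a subspace). -/
def kerAJ (X : 𝒱.Obj) : Submodule ℚ (C.A X) := Submodule.span ℚ {x | HomTriv H m x ∧ a.φ x = 0}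

end Pool.Agent.V1178.FH
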