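import Pool.Agent.V1178.FH.Defs

/-!
# The list of conditions
-/

set_option autoImplicit false

open CategoryTheory AlgebraicGeometry

universe u v w

namespace Pool.Agent.V1178.FH

open Pool.Agent.H914 Pool.Agent.H914.VarClass Pool.Agent.H914.VarClass.Obj Pool.Agent.W492.BB

variable {k : Type u} [Field k] {𝒱 : VarClass k} {C : TheoryData.{u, v, 0} 𝒱 ℚ}

/-- The conditions: bounded dimension, commuting correspondences, a polynomial identity, no free
pairs, no free lines. -/
def conditions (P : 𝒱.Obj → Prop) (n : ℕ) (R : ∀ X : 𝒱.Obj, Submodule ℚ (C.A X)) : List Prop :=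
  [∃ D, AtMost P n R D, Commuting P n R,
    ∃ (d : ℕ) (c : Equiv.Perm (Fin d) → ℚ), c ≠ 0 ∧ Identity P n R d c,
    NoFreePairs P n R, NoFreeLines P n R]

end Pool.Agent.V1178.FH
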