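import Pool.Agent.V1157.RC.Base
import Pool.Agent.V1178.FG.Defs
import Pool.Agent.V1178.FG.Ping

/-!
# Free groups generated by unipotent automorphisms of the motive of a complete intersection in
`S × S`
-/

set_option autoImplicit false

open CategoryTheory AlgebraicGeometry

universe u v w

namespace Pool.Agent.V1178.FH

open Pool.Agent.H914 Pool.Agent.H914.VarClass Pool.Agent.H914.VarClass.Obj Pool.Agent.W492.BB
  Pool.Agent.W550.Corr Pool.Agent.TH133 Pool.Agent.Y148.BB Pool.Agent.V1157.RC Pool.Agent.V1178.FG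

set_option linter.unusedSectionVars false

variable {k : Type u} [Field k] {𝒱 : VarClass k} {C : TheoryData.{u, v, 0} 𝒱 ℚ}
  [hC : IsChowProj C] {S T V : 𝒱.Obj} {n : ℕ} {p : V ⟶ S} {r : V ⟶ T} {a : C.A S} {b : C.A T}
  {m l : ℚ}

/-- The class `x` is killed by the decomposable correspondences `a ^ i × b`, `a` a divisor class. -/
def Killed (C : TheoryData.{u, v, 0} 𝒱 ℚ) {S : 𝒱.Obj} (x : C.A S) : Prop :=
  ∀ {Y : 𝒱.Obj} {a : C.A S}, a ∈ C.gr S 1 → ∀ (i : ℕ) (b : C.A Y), C.act (C.ext (a ^ i) b) x = 0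

include hC

lemma Killed.prj {x : C.A S} (hx : Killed C x) {a : C.A S} (ha : a ∈ C.gr S 1) (m : ℚ) :
    C.act (prj C n a m) x = 0 := by
  rw [Pool.Agent.V1157.RC.prj, act_smul', act_sum, Finset.sum_eq_zero, smul_zero]
  intro i _
  exact hx ha _ _

lemma Killed.pow {x : C.A S} (hx : Killed C x) {a : C.A S} (ha : a ∈ C.gr S 1) {b : C.A T} :
    C.act ((C.pull (fst S T) a + C.pull (snd S T) b) ^ n) x = 0 := by
  rw [pow_eq_sum, act_sum, Finset.sum_eq_zero]
  intro j _
  rw [act_smul', hx ha, smul_zero]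

/-- The action of `sqz` on a pull-back through `p`. -/
lemma act_sqz_left (h : Cover C n p r a b m l) {Z : C.A (S.prod T)} {x : C.A S} (hx : Killed C x)
    (hy : Killed C (C.act Z x)) :
    C.act (sqz C n p r a b m l Z) (C.pull p x) = l • C.pull r (C.act Z x) := by
  have h1 : C.act (shp n a b m l Z) x = C.act Z x := by
    rw [shp, C.act_comp, C.act_sub, act_dg, hx.prj h.ha, sub_zero, C.act_comp, C.act_sub, act_dg,
      hy.prj h.hb, sub_zero]
  rw [sqz, C.act_comp, C.act_graph, push_pull_of h.push_p, C.act_comp, act_map_smul, h1,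
    act_map_smul, C.act_cograph]

/-- The action of `sqz` on a pull-back through `r`. -/
lemma act_sqz_right (h : Cover C n p r a b m l) {Z : C.A (S.prod T)} {y : C.A T}
    (hy : Killed C y) : C.act (sqz C n p r a b m l Z) (C.pull r y) = 0 := by
  have h1 : C.push p (C.pull r y) = 0 := by
    rw [← C.act_graph, ← C.act_cograph, ← C.act_comp, cog_gr, h.symm.cls]
    exact hy.pow h.hb
  rw [sqz, C.act_comp, C.act_graph, h1, C.act_map_zero]

/-- The two unipotent automorphisms. -/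
theorem core {r : V ⟶ S} {b : C.A S} (h : Cover C n p r a b m l) {x : C.A S} (hx : Killed C x)
    (hne : x ≠ 0) :
    ∃ W : Fin 2 → C.A (V.prod V), (∀ i, C.comp (W i) (W i) = 0) ∧
      (∀ i, ∃ (Γ : C.A (V.prod S)) (Δ : C.A (S.prod V)), C.Deg n Γ ∧ C.Deg n Δ ∧
        W i = C.comp Γ Δ) ∧
      ∀ (w : FreeGroup (Fin 2)) (q : ℚ), w ≠ 1 →
        wordAct W w (C.pull p x + C.pull r x) ≠ q • (C.pull p x + C.pull r x) := by
  have hz : ∀ {t : ℚ}, C.act (t • dg C S) x = t • x := by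
    intro t
    rw [act_smul', act_dg]
  have hks : ∀ {t : ℚ}, Killed C (t • x) := by
    intro t Y a' ha' i b'
    rw [act_map_smul, hx ha', smul_zero]
  have hdg : ∀ t : ℚ, t • dg C S ∈ C.gr (S.prod S) n := fun t =>
    Submodule.smul_mem _ _ (gr_congr (by rw [h.dimS]) (dg_mem C S))
  set Z₀ : C.A (S.prod S) := (3 / m) • dg C S with hZ₀
  set Z₁ : C.A (S.prod S) := (3 / l) • dg C S with hZ₁
  have a10 : C.act (sqz C n p r a b m l Z₁) (C.pull p x) = (3 : ℚ) • C.pull r x := by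
    rw [act_sqz_left h hx (by rw [hZ₁, hz]; exact hks), hZ₁, hz, map_smul, smul_smul,
      mul_div_cancel₀ 3 h.hl]
  have a11 : C.act (sqz C n p r a b m l Z₁) (C.pull r x) = 0 := act_sqz_right h hx
  have a01 : C.act (sqz C n r p b a l m Z₀) (C.pull r x) = (3 : ℚ) • C.pull p x := by
    rw [act_sqz_left h.symm hx (by rw [hZ₀, hz]; exact hks), hZ₀, hz, map_smul, smul_smul,
      mul_div_cancel₀ 3 h.hm]
  have a00 : C.act (sqz C n r p b a l m Z₀) (C.pull p x) = 0 := act_sqz_right h.symm hx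
  have hp0 : C.pull p x ≠ 0 := by
    intro h0
    have h4 := push_pull_of h.push_p x
    rw [h0, map_zero] at h4
    exact hne ((smul_eq_zero.1 h4.symm).resolve_left h.hl)
  have hr0 : C.pull r x ≠ 0 := by
    intro h0
    have h4 := push_pull_of h.symm.push_p x
    rw [h0, map_zero] at h4
    exact hne ((smul_eq_zero.1 h4.symm).resolve_left h.hm)
  have hgr : ∀ f : V ⟶ S, C.graph f ∈ C.gr (V.prod S) n := fun f =>
    gr_congr (by rw [h.dimS]) (graph_mem f)
  have hcg : ∀ f : V ⟶ S, C.cograph f ∈ C.gr (S.prod V) n := fun f =>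
    gr_congr (by rw [h.dimS]) (cograph_mem f)
  have c0 : ∀ {X Y U : 𝒱.Obj} (hX : X.dim = n) (hY : Y.dim = n) {Γ : C.A (X.prod Y)}
      {Δ : C.A (Y.prod U)}, Γ ∈ C.gr (X.prod Y) n → Δ ∈ C.gr (Y.prod U) n →
      C.comp Γ Δ ∈ C.gr (X.prod U) n := by
    intro X Y U hX hY Γ Δ hΓ hΔ
    have h1 : Γ ∈ C.gr (X.prod Y) (X.dim + 0) := gr_congr (by rw [hX]; ring) hΓ
    have h2 : Δ ∈ C.gr (Y.prod U) (Y.dim + 0) := gr_congr (by rw [hY]; ring) hΔ
    exact gr_congr (by rw [hX]; ring) (comp_mem C h1 h2)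
  have hprj : ∀ {a' : C.A S} {m' : ℚ}, a' ∈ C.gr S 1 →
      dg C S - prj C n a' m' ∈ C.gr (S.prod S) n := fun ha' =>
    Submodule.sub_mem _ (gr_congr (by rw [h.dimS]) (dg_mem C S)) (prj_mem ha' _)
  have hshp : ∀ {a' b' : C.A S} {m' l' : ℚ} {Z : C.A (S.prod S)}, a' ∈ C.gr S 1 →
      b' ∈ C.gr S 1 → Z ∈ C.gr (S.prod S) n → shp n a' b' m' l' Z ∈ C.gr (S.prod S) n :=
    fun ha' hb' hZ => c0 h.dimS h.dimS (hprj ha') (c0 h.dimS h.dimS hZ (hprj hb'))
  refine ⟨![sqz C n r p b a l m Z₀, sqz C n p r a b m l Z₁], ?_, ?_, ?_⟩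
  · intro i
    fin_cases i
    · exact h.symm.sqz_sq Z₀
    · exact h.sqz_sq Z₁
  · intro i
    fin_cases i
    · exact ⟨C.graph r, _, hgr r, c0 h.dimS h.dimS (hshp h.hb h.ha (hdg _)) (hcg p), rfl⟩
    · exact ⟨C.graph p, _, hgr p, c0 h.dimS h.dimS (hshp h.ha h.hb (hdg _)) (hcg r), rfl⟩
  · intro w q hw
    refine free_orbit
      (A := fun i => C.actL (![sqz C n r p b a l m Z₀, sqz C n p r a b m l Z₁] i))
      (e := ![C.pull p x, C.pull r x]) a00 a01 a10 a11 ?_ hw q
    intro s t hst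
    change s • C.pull p x + t • C.pull r x = 0 at hst
    have b1 := congrArg (C.act (sqz C n p r a b m l Z₁)) hst
    have b0 := congrArg (C.act (sqz C n r p b a l m Z₀)) hst
    rw [act_map_add, act_map_smul, act_map_smul, a10, a11, smul_zero, add_zero, smul_smul,
      C.act_map_zero] at b1
    rw [act_map_add, act_map_smul, act_map_smul, a00, a01, smul_zero, zero_add, smul_smul,
      C.act_map_zero] at b0
    constructor
    · rcases smul_eq_zero.1 b1 with h | h
      · linarith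
      · exact absurd h hr0
    · rcases smul_eq_zero.1 b0 with h | h
      · linarith
      · exact absurd h hp0

end Pool.Agent.V1178.FH
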