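import Pool.Agent.V1157.CB.Defs
import Pool.Agent.V1157.RC.Defs
import Pool.Agent.V1178.FG.Defs

/-!
# Stable families of homologically trivial cycles and free groups of motivic automorphisms:
definitions
-/

set_option autoImplicit false

open CategoryTheory AlgebraicGeometry

universe u v w

namespace Pool.Agent.V1178.FH

open Pool.Agent.H914 Pool.Agent.H914.VarClass Pool.Agent.H914.VarClass.Obj Pool.Agent.W492.BB
  Pool.Agent.V1157.KF Pool.Agent.V1178.FG
open Pool.Agent.V1157.CB (FactorsThrough)

variable {k : Type u} [Field k] {𝒱 : VarClass k} {C : TheoryData.{u, v, 0} 𝒱 ℚ} {K : Type w}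
  [Field K]

/-- `R X` is, for every variety `X` of dimension `n`, a space of homologically trivial cycles of
codimension `j` on `X` (with rational coefficients), and the correspondences of degree zero between
varieties of dimension `n` respect these spaces. Examples: all homologically trivial cycles; the
kernel of an Abel–Jacobi map. -/
structure IsStable (H : WeilTheoryData.{u, v, w} C K) (n j : ℕ)
    (R : ∀ X : 𝒱.Obj, Submodule ℚ (C.A X)) : Prop where
  triv {X : 𝒱.Obj} {x : C.A X} : X.dim = n → x ∈ R X → HomTriv H j x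
  act {X Y : 𝒱.Obj} (Γ : C.A (X.prod Y)) {x : C.A X} : X.dim = n → Y.dim = n → C.Deg n Γ →
    x ∈ R X → C.act Γ x ∈ R Y

variable (P : 𝒱.Obj → Prop) (n : ℕ) (R : ∀ X : 𝒱.Obj, Submodule ℚ (C.A X))

/-- `R Y = 0` for the varieties `Y` of dimension `n` in the class `P`. -/
def Vanishing : Prop := ∀ (Y : 𝒱.Obj) (y : C.A Y), P Y → Y.dim = n → y ∈ R Y → y = 0

/-- The cycle `x` on `X` is the image `Γ_* y` of an element `y` of `R Y` under a correspondence `Γ`
of degree zero, `Y` a variety of dimension `n` in the class `P`. -/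
def ComesFrom (X : 𝒱.Obj) (x : C.A X) : Prop :=
  ∃ (Y : 𝒱.Obj) (Γ : C.A (Y.prod X)) (y : C.A Y), P Y ∧ Y.dim = n ∧ C.Deg n Γ ∧ y ∈ R Y ∧
    x = C.act Γ y

/-- On every variety of dimension `n`, of any `D + 1` of these cycles a non-trivial rational linear
combination is zero. -/
def AtMost (D : ℕ) : Prop := ∀ (X : 𝒱.Obj) (x : Fin (D + 1) → C.A X), X.dim = n →
  (∀ i, ComesFrom P n R X (x i)) → ∃ c : Fin (D + 1) → ℚ, c ≠ 0 ∧ ∑ i, c i • x i = 0

/-- Any two self-correspondences of a variety `X` of dimension `n` which factor through varieties in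
the class `P` commute on `R X`. -/
def Commuting : Prop := ∀ (X : 𝒱.Obj) (A B : C.A (X.prod X)) (x : C.A X), X.dim = n →
  FactorsThrough C P n X A → FactorsThrough C P n X B → x ∈ R X →
    C.act A (C.act B x) = C.act B (C.act A x)

/-- Any `d` self-correspondences of a variety `X` of dimension `n` which factor through varieties in
the class `P` satisfy the multilinear polynomial identity
`∑ c(σ) W_{σ(1)} W_{σ(2)} ⋯ W_{σ(d)} = 0` on `R X`. -/
def Identity (d : ℕ) (c : Equiv.Perm (Fin d) → ℚ) : Prop :=
  ∀ (X : 𝒱.Obj) (W : Fin d → C.A (X.prod X)) (x : C.A X), X.dim = n →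
    (∀ i, FactorsThrough C P n X (W i)) → x ∈ R X →
      ∑ σ, c σ • ops C (List.ofFn fun i => W (σ i)) x = 0

/-- The self-correspondence `W` of `X` factors through a variety of dimension `n` in the class `P`,
by correspondences of degree zero, and `W ∘ W = 0`. Then `1 + W` is an automorphism of the Chow
motive of `X`, with the inverse `1 - W`. -/
def IsUnip (C : TheoryData.{u, v, 0} 𝒱 ℚ) (P : 𝒱.Obj → Prop) (n : ℕ) (X : 𝒱.Obj)
    (W : C.A (X.prod X)) : Prop := C.comp W W = 0 ∧ FactorsThrough C P n X W

/-- For all varieties `X` of dimension `n` and all such `W 0`, `W 1` the automorphisms `1 + W 0`,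
`1 + W 1` satisfy a nontrivial relation on `R X`: they do not generate freely a free group. -/
def NoFreePairs : Prop :=
  ∀ (X : 𝒱.Obj) (W : Fin 2 → C.A (X.prod X)), X.dim = n → (∀ i, IsUnip C P n X (W i)) →
    ∃ w : FreeGroup (Fin 2), w ≠ 1 ∧ ∀ x ∈ R X, wordAct W w x = x

/-- For all varieties `X` of dimension `n`, all such `W 0`, `W 1` and all `x` in `R X` there are a
nontrivial element `w` of the free group of rank two and a rational number `q` with
`w(1 + W 0, 1 + W 1) x = q x`. -/
def NoFreeLines : Prop :=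
  ∀ (X : 𝒱.Obj) (W : Fin 2 → C.A (X.prod X)), X.dim = n → (∀ i, IsUnip C P n X (W i)) →
    ∀ x ∈ R X, ∃ (w : FreeGroup (Fin 2)) (q : ℚ), w ≠ 1 ∧ wordAct W w x = q • x

end Pool.Agent.V1178.FH
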