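import Pool.Agent.V1157.CB.Main
import Pool.Agent.V1178.FH.Core
import Pool.Agent.V1178.FH.Defs

/-!
# Stable families of homologically trivial cycles vanish if there are no free groups
-/

set_option autoImplicit false

open CategoryTheory AlgebraicGeometry

universe u v w

namespace Pool.Agent.V1178.FH

open Pool.Agent.H914 Pool.Agent.H914.VarClass Pool.Agent.H914.VarClass.Obj Pool.Agent.W492.BB
  Pool.Agent.W550.Corr Pool.Agent.TH133 Pool.Agent.Y148.BB Pool.Agent.V1157.RC
  Pool.Agent.V1157.KF Pool.Agent.V1178.FG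
open Pool.Agent.V1157.CB (hom_act factors_mt FactorsThrough)

set_option linter.unusedSectionVars false

variable {k : Type u} [Field k] {𝒱 : VarClass k} {C : TheoryData.{u, v, 0} 𝒱 ℚ}
  [hC : IsChowProj C] {K : Type w} [Field K] {H : WeilTheoryData.{u, v, w} C K}
  {P : 𝒱.Obj → Prop} {n j : ℕ} {R : ∀ X : 𝒱.Obj, Submodule ℚ (C.A X)}

include hC

/-- The general form: `R X` is only assumed to be killed by the decomposable correspondences which
occur. -/
theorem main_killed
    (hk : ∀ {X : 𝒱.Obj} {x : C.A X}, X.dim = n → x ∈ R X → Killed C x)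
    (hact : ∀ {X Y : 𝒱.Obj} (Γ : C.A (X.prod Y)) {x : C.A X}, X.dim = n → Y.dim = n →
      C.Deg n Γ → x ∈ R X → C.act Γ x ∈ R Y)
    (hI : ∀ S : 𝒱.Obj, P S → S.dim = n → HasIntersection C n S S) :
    List.TFAE [Vanishing P n R, NoFreePairs P n R, NoFreeLines P n R] := by
  tfae_have 1 → 2 := by
    intro h X W hX hW
    refine ⟨FreeGroup.of 0, FreeGroup.of_ne_one 0, fun x hx => ?_⟩
    obtain ⟨-, Y, Γ, Δ, hP, hY, hΓ, hΔ, h1⟩ := hW 0
    have h2 : C.act (W 0) x = 0 := by
      rw [h1, C.act_comp, h Y _ hP hY (hact Γ hX hY hΓ hx), C.act_map_zero]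
    rw [wordAct, FreeGroup.toWord_of]
    change x + C.act (W 0) x = x
    rw [h2, add_zero]
  tfae_have 2 → 3 := by
    intro h X W hX hW x hx
    obtain ⟨w, hw, h1⟩ := h X W hX hW
    exact ⟨w, 1, hw, by rw [h1 x hx, one_smul]⟩
  tfae_have 3 → 1 := by
    intro h S x hPS hS hx
    by_contra hne
    obtain ⟨V, p, r, a, b, m, l, h1, h2, h3, h4, h5, h6, h7, h8⟩ := hI S hPS hS
    have hcov : Cover C n p r a b m l := ⟨hS, hS, h1, h2, h3, h4, h5, h6, h7, h8⟩
    obtain ⟨W, hsq, hfac, hfree⟩ := core hcov (hk hS hx) hne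
    have hmem : ∀ f : V ⟶ S, C.pull f x ∈ R V := by
      intro f
      rw [← C.act_cograph]
      exact hact _ hS h1 (gr_congr (by rw [hS]) (cograph_mem f)) hx
    obtain ⟨w, q, hw, hq⟩ := h V W h1 (fun i => by
      obtain ⟨Γ, Δ, g1, g2, g3⟩ := hfac i
      exact ⟨hsq i, S, Γ, Δ, hPS, hS, g1, g2, g3⟩) _
      (Submodule.add_mem _ (hmem p) (hmem r))
    exact hfree w q hw hq
  tfae_finish

/-- `p_{j*} p_i^*` kills `x` if `i ≠ j`. -/
lemma push_pull_killed {S V : 𝒱.Obj} {N : ℕ} {p : ℕ → (V ⟶ S)} {a : C.A S} {c κ : ℚ}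
    (h : Pw C n N p a c κ) {i j : ℕ} (hi : i < N) (hj : j < N) (hij : i ≠ j) {x : C.A S}
    (hx : Killed C x) : C.push (p j) (C.pull (p i) x) = 0 := by
  rw [← C.act_graph, ← C.act_cograph, ← C.act_comp, cog_gr, h.pq i hi j hj hij, act_smul',
    hx.pow h.ha, smul_zero]

/-- Applying the staircase operators in an order different from the natural one gives zero. -/
lemma ops_killed {S V : 𝒱.Obj} {d : ℕ} {p : ℕ → (V ⟶ S)} {a : C.A S} {c κ : ℚ}
    (h : Pw C n (d + 1) p a c κ) {x : C.A S} (hx : Killed C x) (l : List (Fin d)) (e : ℕ)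
    (he : e ≤ d) (hl : ¬ (∀ q : ℕ, ∀ hq : q < l.length, (l[q] : ℕ) = e + q)) :
    ops C (l.map fun i : Fin d => mt C (p i) (p (i + 1))) (C.pull (p e) x) = 0 := by
  induction l generalizing e with
  | nil => exact absurd (fun q hq => absurd hq (by simp)) hl
  | cons i l ih =>
    rw [List.map_cons, ops_cons, act_mt]
    by_cases him : (i : ℕ) = e
    · subst him
      rw [push_pull_of (h.pp i (by omega)), map_smul, ops_smul, ih (i + 1) (by omega), smul_zero]
      intro hcon
      apply hl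
      intro q hq
      cases q with
      | zero => rfl
      | succ q =>
        rw [List.getElem_cons_succ, hcon q (by simpa using hq)]
        ring
    · rw [push_pull_killed h (i := e) (j := i) (by omega) (by have := i.2; omega)
        (Ne.symm him) hx, map_zero, ops_zero]

/-- Bounded families, commuting correspondences, polynomial identities. -/
theorem main_identity
    (hk : ∀ {X : 𝒱.Obj} {x : C.A X}, X.dim = n → x ∈ R X → Killed C x)
    (hact : ∀ {X Y : 𝒱.Obj} (Γ : C.A (X.prod Y)) {x : C.A X}, X.dim = n → Y.dim = n →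
      C.Deg n Γ → x ∈ R X → C.act Γ x ∈ R Y)
    (hB : ∀ (S : 𝒱.Obj) (N : ℕ), P S → S.dim = n → HasPower C n N S) :
    List.TFAE [Vanishing P n R, ∃ D, AtMost P n R D, Commuting P n R,
      ∃ (d : ℕ) (c : Equiv.Perm (Fin d) → ℚ), c ≠ 0 ∧ Identity P n R d c] := by
  tfae_have 1 → 2 := by
    intro h
    refine ⟨0, fun X x hX hx => ⟨fun _ => 1, ?_, ?_⟩⟩
    · intro h1
      exact one_ne_zero (congrFun h1 0)
    · apply Finset.sum_eq_zero
      intro i _
      obtain ⟨Y, Γ, y, hP, hY, hΓ, hy, h1⟩ := hx i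
      rw [h1, h Y y hP hY hy, C.act_map_zero, smul_zero]
  tfae_have 2 → 1 := by
    rintro ⟨D, hD⟩ Y y hP hY hy
    obtain ⟨V, p, a, c, κ, h⟩ := exists_pw hY (hB Y (D + 1) hP hY)
    obtain ⟨b, hb, hb2⟩ := hD V (fun i => C.pull (p i) y) h.dimV (fun i =>
      ⟨Y, C.cograph (p i), y, hP, hY, gr_congr (by rw [hY]) (cograph_mem (p i)), hy,
        (C.act_cograph (p i) y).symm⟩)
    obtain ⟨i, hi⟩ : ∃ i, b i ≠ 0 := by
      by_contra hcon
      push Not at hcon
      exact hb (funext hcon)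
    have h1 := congrArg (C.push (p i)) hb2
    rw [map_sum, map_zero, Finset.sum_eq_single i, map_smul, push_pull_of (h.pp i i.2),
      smul_smul] at h1
    · rw [← one_smul ℚ y, ← inv_mul_cancel₀ (mul_ne_zero hi h.hκ), mul_smul, h1, smul_zero]
    · intro j _ hj
      rw [map_smul, push_pull_killed h j.2 i.2 (fun e => hj (Fin.ext e)) (hk hY hy), smul_zero]
    · intro h0
      exact absurd (Finset.mem_univ i) h0
  tfae_have 1 → 3 := by
    rintro h X A B x hX ⟨Y, Γ, Δ, hP, hY, hΓ, hΔ, rfl⟩ ⟨Y', Γ', Δ', hP', hY', hΓ', hΔ', rfl⟩ hx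
    have h1 : C.act Γ x = 0 := h Y _ hP hY (hact Γ hX hY hΓ hx)
    have h2 : C.act Γ' x = 0 := h Y' _ hP' hY' (hact Γ' hX hY' hΓ' hx)
    rw [C.act_comp, C.act_comp, C.act_comp, C.act_comp, h1, h2]
    simp only [C.act_map_zero]
  tfae_have 3 → 4 := by
    intro h
    refine ⟨2, fun σ => if σ = 1 then 1 else -1, ?_, ?_⟩
    · intro h1
      have := congrFun h1 1
      simp at this
    · intro X W x hX hW hx
      have h1 := h X (W 1) (W 0) x hX (hW 1) (hW 0) hx
      have h2 : (Finset.univ : Finset (Equiv.Perm (Fin 2))) = {1, Equiv.swap 0 1} := by decide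
      have h3 : (1 : Equiv.Perm (Fin 2)) ≠ Equiv.swap 0 1 := by decide
      rw [h2, Finset.sum_pair h3]
      beta_reduce
      rw [if_pos rfl, if_neg h3.symm]
      simp only [List.ofFn_succ, List.ofFn_zero, Equiv.Perm.one_apply, one_smul, neg_smul,
        Equiv.swap_apply_left, Fin.succ_zero_eq_one, Equiv.swap_apply_right, ops, List.foldl_cons,
        List.foldl_nil, ← sub_eq_add_neg]
      exact sub_eq_zero.2 h1
  tfae_have 4 → 1 := by
    rintro ⟨d, c, hc, hI⟩ S x hPS hS hx
    obtain ⟨V, p, a, b, κ, h⟩ := exists_pw hS (hB S (d + 1) hPS hS)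
    obtain ⟨σ, hσ⟩ : ∃ σ, c σ ≠ 0 := by
      by_contra hcon
      push Not at hcon
      exact hc (funext hcon)
    have hx0 : C.pull (p 0) x ∈ R V := by
      rw [← C.act_cograph]
      exact hact _ hS h.dimV (gr_congr (by rw [hS]) (cograph_mem (p 0))) hx
    have h1 := hI V (fun i => mt C (p (σ⁻¹ i)) (p (σ⁻¹ i + 1))) (C.pull (p 0) x) h.dimV
      (fun i => factors_mt hS hPS _ _) hx0
    have e0 : ∀ τ : Equiv.Perm (Fin d), (List.ofFn fun i => mt C (p (σ⁻¹ (τ i)))
        (p (σ⁻¹ (τ i) + 1))) = (List.ofFn fun i => (σ⁻¹ * τ) i).map fun i : Fin d =>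
          mt C (p i) (p (i + 1)) := by
      intro τ
      rw [List.map_ofFn]
      rfl
    rw [Finset.sum_eq_single σ] at h1
    · rw [e0, inv_mul_cancel, h.ops_stair x d 0 (by omega) _ (by simp) (by intro q hq; simp),
        smul_smul] at h1
      have h2 : c σ * κ ^ d ≠ 0 := mul_ne_zero hσ (pow_ne_zero _ h.hκ)
      have h3 : C.pull (p d) x = 0 := by
        rw [← one_smul ℚ (C.pull (p d) x), ← inv_mul_cancel₀ h2, mul_smul, h1, smul_zero]
      have h4 := push_pull_of (h.pp d (by omega)) x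
      rw [h3, map_zero] at h4
      rw [← one_smul ℚ x, ← inv_mul_cancel₀ h.hκ, mul_smul, ← h4, smul_zero]
    · intro τ _ hτ
      rw [e0, ops_killed h (hk hS hx) _ 0 (by omega), smul_zero]
      intro hcon
      apply hτ
      have h3 : σ⁻¹ * τ = 1 := by
        ext i
        have := hcon i (by simp)
        simpa using this
      rw [inv_mul_eq_one] at h3
      exact h3.symm
    · intro h0
      exact absurd (Finset.mem_univ σ) h0
  tfae_finish

/-- All the conditions together. -/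
theorem main_all
    (hk : ∀ {X : 𝒱.Obj} {x : C.A X}, X.dim = n → x ∈ R X → Killed C x)
    (hact : ∀ {X Y : 𝒱.Obj} (Γ : C.A (X.prod Y)) {x : C.A X}, X.dim = n → Y.dim = n →
      C.Deg n Γ → x ∈ R X → C.act Γ x ∈ R Y)
    (hI : ∀ S : 𝒱.Obj, P S → S.dim = n → HasIntersection C n S S)
    (hB : ∀ (S : 𝒱.Obj) (N : ℕ), P S → S.dim = n → HasPower C n N S) :
    List.TFAE [Vanishing P n R, ∃ D, AtMost P n R D, Commuting P n R,
      ∃ (d : ℕ) (c : Equiv.Perm (Fin d) → ℚ), c ≠ 0 ∧ Identity P n R d c,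
      NoFreePairs P n R, NoFreeLines P n R] := by
  have h1 := main_identity hk hact hB
  have h2 := main_killed hk hact hI
  tfae_have 1 ↔ 2 := h1.out 0 1
  tfae_have 1 ↔ 3 := h1.out 0 2
  tfae_have 1 ↔ 4 := h1.out 0 3
  tfae_have 1 ↔ 5 := h2.out 0 1
  tfae_have 1 ↔ 6 := h2.out 0 2
  tfae_finish

/-- The form for homologically trivial cycles, all conditions. -/
theorem main_stable_all [hH : IsWeilProj H] (hR : IsStable H n j R)
    (hI : ∀ S : 𝒱.Obj, P S → S.dim = n → HasIntersection C n S S)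
    (hB : ∀ (S : 𝒱.Obj) (N : ℕ), P S → S.dim = n → HasPower C n N S) :
    List.TFAE [Vanishing P n R, ∃ D, AtMost P n R D, Commuting P n R,
      ∃ (d : ℕ) (c : Equiv.Perm (Fin d) → ℚ), c ≠ 0 ∧ Identity P n R d c,
      NoFreePairs P n R, NoFreeLines P n R] :=
  main_all (fun {X} {x} hX hx => by
    intro Y a ha i b
    exact act_ext_triv hX (pow_mem' ha i) (hR.triv hX hx)) hR.act hI hB

/-- The form for homologically trivial cycles. -/
theorem main_stable [hH : IsWeilProj H] (hR : IsStable H n j R)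
    (hI : ∀ S : 𝒱.Obj, P S → S.dim = n → HasIntersection C n S S) :
    List.TFAE [Vanishing P n R, NoFreePairs P n R, NoFreeLines P n R] :=
  main_killed (fun {X} {x} hX hx => by
    intro Y a ha i b
    exact act_ext_triv hX (pow_mem' ha i) (hR.triv hX hx)) hR.act hI

variable (H j) in
/-- The space of homologically trivial cycles. -/
def homSub (X : 𝒱.Obj) : Submodule ℚ (C.A X) where
  carrier := {x | HomTriv H j x}
  zero_mem' := ⟨Submodule.zero_mem _, map_zero _⟩
  add_mem' := by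
    rintro a b ⟨h1, h2⟩ ⟨h3, h4⟩
    exact ⟨Submodule.add_mem _ h1 h3, by rw [map_add, h2, h4, add_zero]⟩
  smul_mem' := by
    rintro q a ⟨h1, h2⟩
    refine ⟨Submodule.smul_mem _ q h1, ?_⟩
    rw [Algebra.smul_def, map_mul, h2, mul_zero]

lemma isStable_homSub (H : WeilTheoryData.{u, v, w} C K) [hH : IsWeilProj H] (n j : ℕ) :
    IsStable H n j (homSub H j) where
  triv := fun _ hx => hx
  act := by
    intro X Y Γ x hX _ hΓ hx
    exact hom_act hX hΓ hx

end Pool.Agent.V1178.FH
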