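import Pool.Agent.V1178.FH.ADefs
import Pool.Agent.V1178.FH.CDefs
import Pool.Agent.V1178.FH.Main

/-!
# Kernels of Abel-Jacobi maps
-/

set_option autoImplicit false

open CategoryTheory AlgebraicGeometry

universe u v w

namespace Pool.Agent.V1178.FH

open Pool.Agent.H914 Pool.Agent.H914.VarClass Pool.Agent.H914.VarClass.Obj Pool.Agent.W492.BB
  Pool.Agent.TH133 Pool.Agent.V1157.KF Pool.Agent.V1157.RC

variable {k : Type u} [Field k] {𝒱 : VarClass k} {C : TheoryData.{u, v, 0} 𝒱 ℚ} {K : Type w}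
  [Field K] [hC : IsChowProj C] {H : WeilTheoryData.{u, v, w} C K} {n m : ℕ}

omit hC in
lemma homTriv_zero {X : 𝒱.Obj} : HomTriv H m (0 : C.A X) := ⟨Submodule.zero_mem _, map_zero _⟩

omit hC in
lemma homTriv_add {X : 𝒱.Obj} {x y : C.A X} (hx : HomTriv H m x) (hy : HomTriv H m y) :
    HomTriv H m (x + y) :=
  ⟨Submodule.add_mem _ hx.1 hy.1, by rw [map_add, hx.2, hy.2, add_zero]⟩

omit hC in
lemma homTriv_smul {X : 𝒱.Obj} {x : C.A X} (q : ℚ) (hx : HomTriv H m x) :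
    HomTriv H m (q • x) :=
  ⟨Submodule.smul_mem _ q hx.1, by rw [Algebra.smul_def, map_mul, hx.2, mul_zero]⟩

omit hC in
lemma φ_zero (a : AbelJacobi.{u, v, w} H n m) {X : 𝒱.Obj} : a.φ (0 : C.A X) = 0 := by
  have h := a.φ_smul (0 : ℚ) (homTriv_zero (H := H) (m := m) (X := X))
  rwa [zero_smul, zero_smul] at h

omit hC in
lemma ker_add (a : AbelJacobi.{u, v, w} H n m) {X : 𝒱.Obj} {x y : C.A X} (hx : HomTriv H m x ∧ a.φ x = 0)
    (hy : HomTriv H m y ∧ a.φ y = 0) : HomTriv H m (x + y) ∧ a.φ (x + y) = 0 :=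
  ⟨homTriv_add hx.1 hy.1, by rw [a.φ_add hx.1 hy.1, hx.2, hy.2, add_zero]⟩

omit hC in
lemma ker_smul (a : AbelJacobi.{u, v, w} H n m) {X : 𝒱.Obj} {x : C.A X} (q : ℚ) (hx : HomTriv H m x ∧ a.φ x = 0) :
    HomTriv H m (q • x) ∧ a.φ (q • x) = 0 :=
  ⟨homTriv_smul q hx.1, by rw [a.φ_smul q hx.1, hx.2, smul_zero]⟩

omit hC in
lemma mem_kerAJ (a : AbelJacobi.{u, v, w} H n m) {X : 𝒱.Obj} {x : C.A X} :
    x ∈ kerAJ a X ↔ HomTriv H m x ∧ a.φ x = 0 := by
  constructor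
  · intro hx
    induction hx using Submodule.span_induction with
    | mem x hx => exact hx
    | zero => exact ⟨homTriv_zero, φ_zero a⟩
    | add x y _ _ hx hy => exact ker_add a hx hy
    | smul q x _ hx => exact ker_smul a q hx
  · intro hx
    exact Submodule.subset_span hx

lemma isStable_ker [hH : IsWeilProj H] (a : AbelJacobi.{u, v, w} H n m) :
    IsStable H n m (kerAJ a) where
  triv := fun _ hx => ((mem_kerAJ a).1 hx).1
  act := by
    intro X Y Γ x hX hY hΓ hx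
    rw [mem_kerAJ] at hx ⊢
    refine ⟨Pool.Agent.V1157.CB.hom_act hX hΓ hx.1, ?_⟩
    rw [a.φ_act Γ hX hY hΓ hx.1, hx.2, a.act_zero]

/-- **Kernels of Abel-Jacobi maps.** -/
theorem aj_all [hH : IsWeilProj H] (a : AbelJacobi.{u, v, w} H n m) {P : 𝒱.Obj → Prop}
    (hI : ∀ S : 𝒱.Obj, P S → S.dim = n → HasIntersection C n S S)
    (hB : ∀ (S : 𝒱.Obj) (N : ℕ), P S → S.dim = n → HasPower C n N S) :
    List.TFAE (Injectivity a P :: conditions P n (kerAJ a)) := by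
  have h1 : Injectivity a P ↔ Vanishing P n (kerAJ a) :=
    ⟨fun h X x hP hX hx => h X x hP hX ((mem_kerAJ a).1 hx).1 ((mem_kerAJ a).1 hx).2,
      fun h X x hP hX h1 h2 => h X x hP hX ((mem_kerAJ a).2 ⟨h1, h2⟩)⟩
  have h2 := main_stable_all (isStable_ker a) hI hB
  rw [← h1] at h2
  exact h2

end Pool.Agent.V1178.FH
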